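import Pool.Agent.N550.PS.All
import Pool.Agent.N550.TS.Flt
import Pool.Agent.N550.TS.Flm
import Pool.Agent.N550.TS.Flp

/-!
# Smooth homeomorphisms onto `S¹ × S³`

Let `M` be a smooth 4-manifold. The following conditions are equivalent:

* there is a homeomorphism `M → S¹ × S³` of class `C^∞` (with no condition on the rank of its
  derivative or on its inverse);
* there is one which is of class `C^∞` near all points off a set whose image has one-dimensional
  Hausdorff measure zero;
* there are a closed smooth 3-manifold `Y`, for every point `y₀` of `Y` a homeomorphism `Y → S³`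
  which is a local diffeomorphism off `y₀` (so `Y` minus any point is diffeomorphic to `ℝ³`), and a
  homeomorphism `M → S¹ × Y` which is a local diffeomorphism at all points but one.

They imply that there are a homeomorphism `H : M → S¹ × S³` and a point `b` of `S³` such that `H` is a
local diffeomorphism at all points `x` which are not mapped to the circle `S¹ × {b}`; so `M` minus a
circle is diffeomorphic to `S¹ × ℝ³`.

Projects PS, TS: the lemmas were proved by helpers 75 221 374 607 634 664 751 768 935.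
-/

set_option autoImplicit false

open Set Filter Topology Metric Function
open scoped Manifold ContDiff

noncomputable section

namespace Pool.Agent.Results.MP_6db3ee_gt.SmoothHomeoS1S3

/-- `ℝ⁴` -/
abbrev R4 : Type := EuclideanSpace ℝ (Fin 4)

/-- `ℝ³` -/
abbrev R3 : Type := EuclideanSpace ℝ (Fin 3)

/-- the circle, the unit circle of `ℝ²` -/
abbrev S1 : Type := sphere (0 : EuclideanSpace ℝ (Fin 2)) 1

/-- the 3-sphere, the unit sphere of `ℝ⁴` -/
abbrev S3 : Type := sphere (0 : EuclideanSpace ℝ (Fin 4)) 1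

/-- `g` is of class `C^∞` near `x` (no condition is imposed on the derivative) -/
def SmoothNear {M : Type} [TopologicalSpace M] [ChartedSpace R4 M] (g : M → S1 × S3) (x : M) :
    Prop := ∀ᶠ y in 𝓝 x, ContMDiffAt (𝓡 4) ((𝓡 1).prod (𝓡 3)) ∞ g y

/-- `g` is of class `C^∞` (no condition is imposed on the derivative) -/
def SmoothEverywhere {M : Type} [TopologicalSpace M] [ChartedSpace R4 M] (g : M → S1 × S3) : Prop :=
  ContMDiff (𝓡 4) ((𝓡 1).prod (𝓡 3)) ∞ g

/-- a subset of `S¹ × S³` with one-dimensional Hausdorff measure zero -/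
def LengthZero (B : Set (S1 × S3)) : Prop := MeasureTheory.Measure.hausdorffMeasure 1 B = 0

/-- `G : M → S¹ × Y` is a local diffeomorphism at `x` -/
def LocDiff {M Y : Type} [TopologicalSpace M] [ChartedSpace R4 M] [TopologicalSpace Y]
    [ChartedSpace R3 Y] (G : M → S1 × Y) (x : M) : Prop :=
  IsLocalDiffeomorphAt (𝓡 4) ((𝓡 1).prod (𝓡 3)) ∞ G x

/-- `κ : Y → S³` is a local diffeomorphism at `y` -/
def LocDiff3 {Y : Type} [TopologicalSpace Y] [ChartedSpace R3 Y] (κ : Y → S3) (y : Y) : Prop :=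
  IsLocalDiffeomorphAt (𝓡 3) (𝓡 3) ∞ κ y

/-- for every point `y₀` of `Y` there is a homeomorphism of `Y` with `S³` which is a local
diffeomorphism at all other points -/
def AlmostSphere (Y : Type) [TopologicalSpace Y] [ChartedSpace R3 Y] : Prop :=
  ∀ y₀ : Y, ∃ κ : Y ≃ₜ S3, ∀ y, y ≠ y₀ → LocDiff3 κ y

/-- some homeomorphism of `M` with `S¹ × S³` is a local diffeomorphism off the preimage of a circle
`S¹ × {b}` -/
def StandardOffCircle (M : Type) [TopologicalSpace M] [ChartedSpace R4 M] : Prop :=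
  ∃ (H : M ≃ₜ S1 × S3) (b : S3), ∀ x, (H x).2 ≠ b → LocDiff H x

/-- some homeomorphism of `M` with `S¹ × Y` is a local diffeomorphism at all points but one -/
def ProductOffPoint (M Y : Type) [TopologicalSpace M] [ChartedSpace R4 M] [TopologicalSpace Y]
    [ChartedSpace R3 Y] : Prop :=
  ∃ (G : M ≃ₜ S1 × Y) (x₀ : M), ∀ x, x ≠ x₀ → LocDiff G x

/-- some homeomorphism of `M` with `S¹ × Y` is a local diffeomorphism at all points but one, for an
almost sphere `Y` -/
def ProductOffPointSome (M : Type) [TopologicalSpace M] [ChartedSpace R4 M] : Prop :=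
  ∃ (Y : Type) (_ : TopologicalSpace Y) (_ : ChartedSpace R3 Y),
    IsManifold (𝓡 3) ∞ Y ∧ AlmostSphere Y ∧ ProductOffPoint M Y

/-- some homeomorphism of `M` with `S¹ × S³` is of class `C^∞` -/
def HasSmoothHomeo (M : Type) [TopologicalSpace M] [ChartedSpace R4 M] : Prop :=
  ∃ g : M ≃ₜ S1 × S3, SmoothEverywhere g

/-- some homeomorphism of `M` with `S¹ × S³` is of class `C^∞` near all points off a set whose image
has one-dimensional Hausdorff measure zero -/
def HasSmoothHomeoOffNull (M : Type) [TopologicalSpace M] [ChartedSpace R4 M] : Prop :=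
  ∃ g : M ≃ₜ S1 × S3, LengthZero (g '' {x | ¬ SmoothNear g x})

theorem idProd {S Y Z : Type} [TopologicalSpace S] [ChartedSpace (EuclideanSpace ℝ (Fin 1)) S]
    [TopologicalSpace Y] [ChartedSpace R3 Y] [TopologicalSpace Z] [ChartedSpace R3 Z] (κ : Y → Z)
    (w : S × Y) (h : IsLocalDiffeomorphAt (𝓡 3) (𝓡 3) ∞ κ w.2) :
    IsLocalDiffeomorphAt ((𝓡 1).prod (𝓡 3)) ((𝓡 1).prod (𝓡 3)) ∞
      (fun w : S × Y => (w.1, κ w.2)) w := by
  obtain ⟨Φ, hy, heq⟩ := h
  refine ⟨{ toPartialEquiv := (PartialEquiv.refl S).prod Φ.toPartialEquiv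
            open_source := isOpen_univ.prod Φ.open_source
            open_target := isOpen_univ.prod Φ.open_target
            contMDiffOn_toFun := contMDiff_id.contMDiffOn.prodMap Φ.contMDiffOn_toFun
            contMDiffOn_invFun := contMDiff_id.contMDiffOn.prodMap Φ.contMDiffOn_invFun },
    ⟨trivial, hy⟩, ?_⟩
  intro v hv
  exact Prod.ext rfl (heq hv.2)

theorem two_three (M : Type) [TopologicalSpace M] [ChartedSpace R4 M] [IsManifold (𝓡 4) ∞ M]
    (g : M ≃ₜ S1 × S3) (hg : LengthZero (g '' {x | ¬ SmoothNear g x})) :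
    ProductOffPointSome M := by
  obtain ⟨Y, iT, iC, iM, G, x₀, hG, hκ⟩ :=
    Pool.Agent.N550.PS.fin M (fun x => (g x).1) (fun x => (g x).2) g.isHomeomorph (by
      refine MeasureTheory.measure_mono_null ?_ hg
      refine image_mono fun x hx hcon => hx ⟨?_, ?_⟩
      · filter_upwards [hcon] with y hy using hy.fst
      · filter_upwards [hcon] with y hy using hy.snd)
  exact ⟨Y, iT, iC, iM, hκ, G, x₀, hG⟩

theorem three_circle (M : Type) [TopologicalSpace M] [ChartedSpace R4 M] [IsManifold (𝓡 4) ∞ M]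
    (h : ProductOffPointSome M) : StandardOffCircle M := by
  obtain ⟨Y, iT, iC, iM, hκ, G, x₀, hG⟩ := h
  obtain ⟨κ, hκ'⟩ := hκ (G x₀).2
  refine ⟨G.trans ((Homeomorph.refl S1).prodCongr κ), κ (G x₀).2, fun x hx => ?_⟩
  have h1 : (G x).2 ≠ (G x₀).2 := by
    intro h
    apply hx
    show κ (G x).2 = κ (G x₀).2
    rw [h]
  have h2 : x ≠ x₀ := by
    rintro rfl
    exact h1 rfl
  exact IsLocalDiffeomorphAt.comp ((𝓡 1).prod (𝓡 3)) (S1 × S3) (hG x h2)
    (idProd κ (G x) (hκ' _ h1))

theorem three_one (M : Type) [TopologicalSpace M] [ChartedSpace R4 M] [IsManifold (𝓡 4) ∞ M]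
    (h : ProductOffPointSome M) : ∃ f : M ≃ₜ S1 × S3, SmoothEverywhere f := by
  obtain ⟨Y, iT, iC, iM, hκ, G, x₀, hG⟩ := h
  obtain ⟨κ, hκ'⟩ := hκ (G x₀).2
  obtain ⟨κ', hs⟩ := Pool.Agent.N550.TS.Flm.main Pool.Agent.N550.TS.Flt.main 3 Y S3 κ (G x₀).2 hκ'
  refine Pool.Agent.N550.TS.Flp.main Pool.Agent.N550.TS.Flt.main M
    (G.trans ((Homeomorph.refl S1).prodCongr κ')) x₀ (fun x hx => ?_)
  have h1 : ContMDiff ((𝓡 1).prod (𝓡 3)) ((𝓡 1).prod (𝓡 3)) ∞
      (Prod.map (id : S1 → S1) κ') := contMDiff_id.prodMap hs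
  exact (h1 (G x)).comp x (hG x hx).contMDiffAt

/-- **The theorem.** -/
theorem result (M : Type) [TopologicalSpace M] [ChartedSpace R4 M] [IsManifold (𝓡 4) ∞ M] :
    [HasSmoothHomeo M, HasSmoothHomeoOffNull M, ProductOffPointSome M].TFAE ∧
      (ProductOffPointSome M → StandardOffCircle M) := by
  refine ⟨?_, three_circle M⟩
  tfae_have 1 → 2 := by
    rintro ⟨g, hg⟩
    refine ⟨g, ?_⟩
    have h1 : {x | ¬ SmoothNear g x} = ∅ := by
      ext x
      simp only [mem_ofPred_eq, mem_empty_iff_false, iff_false, not_not]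
      exact Eventually.of_forall fun y => hg y
    rw [h1, LengthZero]
    simp
  tfae_have 2 → 3 := by
    rintro ⟨g, hg⟩
    exact two_three M g hg
  tfae_have 3 → 1 := fun h => three_one M h
  tfae_finish

end Pool.Agent.Results.MP_6db3ee_gt.SmoothHomeoS1S3
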