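import Pool.Agent.N550.RF.All

/-!
# Smooth homeomorphisms onto 3-sphere bundles over the circle

Let `N` be the quotient of `ℝ × S³` by the map `(t, u) ↦ (t + 1, ρ u)`, `ρ` a diffeomorphism of `S³`
(`ρ = id`: `S¹ × S³`, `ρ` a reflection: the twisted product), `M` a closed smooth 4-manifold and
`f : M → N` a homeomorphism which is of class `C^∞` near all points off a set whose image has
one-dimensional Hausdorff measure zero. Suppose that, for the parameters `t` in some set `T` of
non-zero (outer) measure, `f` has no points of rank one or two over the fibre `S³` of `t` (points of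
rank zero, three and four are allowed, and the rank is arbitrary over all the other fibres). Then
there is a homeomorphism `M → N` which is a local diffeomorphism at all points but one.
-/

set_option autoImplicit false

open Set Filter Topology Metric Function
open scoped Manifold ContDiff

noncomputable section

namespace Pool.Agent.Results.MP_6db3ee_gt.SmoothHomeoSphereBundle

/-- `ℝ⁴` -/
abbrev R4 : Type := EuclideanSpace ℝ (Fin 4)

/-- the 3-sphere, the unit sphere of `ℝ⁴` -/
abbrev S3 : Type := sphere (0 : EuclideanSpace ℝ (Fin 4)) 1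

section defs

variable {M N : Type} [TopologicalSpace M] [ChartedSpace R4 M] [TopologicalSpace N]
  [ChartedSpace R4 N]

/-- `f` is of class `C^∞` near `x` (no condition is imposed on the derivative) -/
def SmoothNear (f : M → N) (x : M) : Prop := ∀ᶠ y in 𝓝 x, ContMDiffAt (𝓡 4) (𝓡 4) ∞ f y

/-- the derivative of `f` at `x`, as a linear map from `ℝ⁴` to `ℝ⁴` (in the preferred charts) -/
def der (f : M → N) (x : M) : R4 →L[ℝ] R4 := mfderiv (𝓡 4) (𝓡 4) f x

/-- the rank of the derivative of `f` at `x` -/
def rank (f : M → N) (x : M) : ℕ := Module.finrank ℝ (LinearMap.range (der f x).toLinearMap)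

/-- `f` is a local diffeomorphism (of class `C^∞`) at `x` -/
def LocDiff (f : M → N) (x : M) : Prop := IsLocalDiffeomorphAt (𝓡 4) (𝓡 4) ∞ f x

/-- `P : ℝ × S³ → N` is a local diffeomorphism -/
def LocDiffProd (P : ℝ × S3 → N) : Prop :=
  ∀ a, IsLocalDiffeomorphAt (𝓘(ℝ, ℝ).prod (𝓡 3)) (𝓡 4) ∞ P a

/-- a set with one-dimensional Hausdorff measure zero (in the preferred charts) -/
def LengthZero (B : Set N) : Prop :=
  ∀ x₀ : N, MeasureTheory.Measure.hausdorffMeasure 1
    (chartAt R4 x₀ '' ((chartAt R4 x₀).source ∩ B) : Set R4) = 0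

/-- `P` is the projection of `ℝ × S³` onto its quotient `N` by `(t, u) ↦ (t + 1, ρ u)` -/
structure IsSphereBundle (ρ : Equiv.Perm S3) (P : ℝ × S3 → N) : Prop where
  surjective : Surjective P
  locDiff : LocDiffProd P
  fibres : ∀ a b, P a = P b ↔ ∃ k : ℤ, b.1 = a.1 + k ∧ b.2 = (ρ ^ k) a.2

/-- there are no points of rank one or two (where `f` is smooth) over the fibres with parameter
in `T` -/
def NoRankOneTwoOver (f : M → N) (P : ℝ × S3 → N) (T : Set ℝ) : Prop :=
  ∀ x, SmoothNear f x → (rank f x = 1 ∨ rank f x = 2) → ∀ t ∈ T, ∀ u, f x ≠ P (t, u)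

/-- `G` is a local diffeomorphism at all points but one -/
def LocDiffOffPoint (G : M → N) : Prop := ∃ x₀ : M, ∀ x, x ≠ x₀ → LocDiff G x

end defs

theorem result (M N : Type) [TopologicalSpace M] [T2Space M] [ChartedSpace R4 M]
    [IsManifold (𝓡 4) ∞ M] [TopologicalSpace N] [CompactSpace N] [T2Space N]
    [ChartedSpace R4 N] [IsManifold (𝓡 4) ∞ N] (ρ : Equiv.Perm S3) (P : ℝ × S3 → N)
    (hP : IsSphereBundle ρ P) (f : M ≃ₜ N)
    (hf : LengthZero (f '' {x | ¬ SmoothNear f x})) (T : Set ℝ)
    (hT : MeasureTheory.volume T ≠ 0) (hr : NoRankOneTwoOver f P T) :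
    ∃ G : M ≃ₜ N, LocDiffOffPoint G := by
  have : CompactSpace M := f.symm.compactSpace
  refine Pool.Agent.N550.RF.finr M N ρ P ⟨hP.surjective, hP.locDiff, hP.fibres⟩ f T
    (Pool.Agent.N550.KH.Null.main 4 N _ hf) hT (fun x hx hrk t ht u => ?_)
  exact hr x (not_not.1 hx) hrk t ht u

end Pool.Agent.Results.MP_6db3ee_gt.SmoothHomeoSphereBundle
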